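import Mathlib
import Pool.Agent.H592R3.AccDefs
import Pool.Agent.H592R5.PcpDefs
import Pool.Agent.H592R6.PrivG

/-!
Probabilistically checkable proofs of unsatisfiability (of tautologies in disjunctive normal form)
whose verifier is a circuit of small depth need `2 ^ ((1 - ε) n)` gates.
-/

open SmallDepth DomAC0 Filter H592R3 H568R2

theorem Pool.Agent.Results.MP_b53add_lc.CheckableProofs.result :
    (∀ ε : ℝ, 0 < ε → ∃ C : ℝ, 0 < C ∧ ∀ n d k q w M S : ℕ, 2 ≤ n → 1 ≤ d →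
      C * (d * Real.log (n + k * (q + 1))) ≤ w → w ≤ n → n * 2 ^ w ≤ M →
      ∀ (J : Type) (σ : (Fin M × Fin n × Bool → Bool) → (J → Bool)),
      (∀ j, Junta 1 (fun x => σ x j)) →
      ∀ (V : PcpVerifier J k q) (θ : ℝ), V.Bounded d S →
      (∀ x : Fin M × Fin n × Bool → Bool, WidthLe x w → ¬ HasModel x →
        ∃ π, θ + 1 / 3 ≤ V.acc (σ x) π) →
      (∀ x : Fin M × Fin n × Bool → Bool, WidthLe x w → UniqueModel x → HasModel x →
        ∀ π, V.acc (σ x) π ≤ θ) →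
      (2 : ℝ) ^ ((1 - ε) * n) < S) ∧
    (∀ p r : ℕ, p < r → ∀ c d : ℕ, ∃ K : ℕ, ∀ᶠ n : ℕ in atTop, ∀ w M k q : ℕ,
      w = K * Nat.clog 2 n → M = n * 2 ^ w → k ≤ n ^ c → q ≤ n ^ c →
      ¬ ∃ V : PcpVerifier (Fin M × Fin n × Bool) k q, V.Bounded d (2 ^ (p * n / r)) ∧
        (∀ u, WidthLe u w → Taut u → ∃ π, V.acc u π = 1) ∧
        (∀ u, WidthLe u w → OneFalsifying u → ¬ Taut u → ∀ π, V.acc u π ≤ 1 / 2)) := by
  refine ⟨fun ε hε => pcp_lowerG ε hε, ?_⟩
  intro p q hpq c d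
  have hb : (0 : ℝ) < q := by exact_mod_cast (by omega : 0 < q)
  have hpqR : (p : ℝ) / q < 1 := by rw [div_lt_one hb]; exact_mod_cast hpq
  obtain ⟨ε, hε⟩ : ∃ ε : ℝ, ε = 1 - (p : ℝ) / q := ⟨_, rfl⟩
  have hε0 : 0 < ε := by rw [hε]; linarith
  obtain ⟨C₀, hC₀, hlow⟩ := pcp_lower ε hε0
  obtain ⟨K, hK⟩ : ∃ K : ℕ, K = ⌈C₀ * (((max d 1 : ℕ) : ℝ) * (2 * c + 3))⌉₊ := ⟨_, rfl⟩
  refine ⟨K, ?_⟩
  have hclog : ∀ n : ℕ, 2 ≤ n → 2 ^ Nat.clog 2 n < 2 * n := by
    intro n hn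
    have h5 := Nat.pow_pred_clog_lt_self (b := 2) (by norm_num) (by omega : 1 < n)
    have h6 : Nat.clog 2 n = (Nat.clog 2 n).pred + 1 := by
      have := Nat.clog_pos (b := 2) (by norm_num) (by omega : 2 ≤ n)
      exact (Nat.succ_pred_eq_of_pos this).symm
    rw [h6, pow_succ]
    omega
  have hwlim : ∀ᶠ n : ℕ in atTop, K * Nat.clog 2 n ≤ n := by
    have h2 := (isLittleO_log_rpow_atTop (r := 1) (by norm_num)).bound
      (c := 1 / (4 * (K : ℝ) + 4)) (by positivity)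
    have h3 := tendsto_natCast_atTop_atTop (R := ℝ) |>.eventually h2
    filter_upwards [h3, eventually_ge_atTop (2 * K + 2)] with n hn hn1
    have hn1' : (1 : ℝ) ≤ n := by exact_mod_cast (by omega : 1 ≤ n)
    have hn2 : 2 * (K : ℝ) + 2 ≤ n := by exact_mod_cast hn1
    rw [Real.norm_of_nonneg (Real.log_nonneg hn1'), Real.rpow_one,
      Real.norm_of_nonneg (by positivity)] at hn
    have h4 : (Nat.clog 2 n : ℝ) ≤ 2 * Real.log n + 1 := by
      have h6 : (2 : ℝ) ^ Nat.clog 2 n ≤ 2 * n := by exact_mod_cast (hclog n (by omega)).le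
      have h7 := Real.log_le_log (by positivity) h6
      rw [Real.log_pow, Real.log_mul (by norm_num) (by positivity)] at h7
      have h8 := Real.log_two_gt_d9
      have h9 : (0 : ℝ) ≤ (Nat.clog 2 n : ℝ) := by positivity
      have h10 := Real.log_nonneg hn1'
      by_contra h11
      rw [not_le] at h11
      nlinarith
    have h10 : (K : ℝ) * (Nat.clog 2 n : ℝ) ≤ n := by
      rw [div_mul_eq_mul_div, one_mul, le_div_iff₀ (by positivity)] at hn
      calc (K : ℝ) * (Nat.clog 2 n : ℝ) ≤ K * (2 * Real.log n + 1) := by gcongr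
        _ ≤ n := by
          have h11 := Real.log_nonneg hn1'
          nlinarith
    exact_mod_cast h10
  filter_upwards [hwlim, eventually_ge_atTop 2] with n h1 h3
  intro w M k a hw hM hk ha
  rintro ⟨V, hV, hyes, hno⟩
  have hnR : (2 : ℝ) ≤ n := by exact_mod_cast h3
  have hmain := hlow n (max d 1) k a w M _ h3 (le_max_right _ _) ?_ (hw ▸ h1) hM.ge V (1 / 2)
    (fun ω r => ⟨(hV ω r).1, (hV ω r).2.1.trans (le_max_left _ _),
      fun t i => ((hV ω r).2.2 t i).trans (le_max_left _ _)⟩)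
    (fun x hx hxs => by
      obtain ⟨P, hP⟩ := hyes x hx hxs
      exact ⟨P, by rw [hP]; norm_num⟩)
    (fun x hx h1x hxs => hno x hx h1x hxs)
  · have hfl : ((2 : ℝ) ^ (p * n / q : ℕ)) ≤ 2 ^ ((p : ℝ) / q * n) := by
      rw [← Real.rpow_natCast]
      apply Real.rpow_le_rpow_of_exponent_le (by norm_num)
      calc (((p * n / q : ℕ) : ℕ) : ℝ) ≤ ((p * n : ℕ) : ℝ) / q := Nat.cast_div_le
        _ = (p : ℝ) / q * n := by push_cast; ring
    have h9 : (1 - ε) * (n : ℝ) = (p : ℝ) / q * n := by rw [hε]; ring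
    rw [h9] at hmain
    push_cast at hmain
    linarith
  · have h8 : C₀ * (((max d 1 : ℕ) : ℝ) * (2 * c + 3)) ≤ K := by rw [hK]; exact Nat.le_ceil _
    have h9 : Real.log n ≤ (Nat.clog 2 n : ℝ) := by
      have h10 : (n : ℝ) ≤ 2 ^ (Nat.clog 2 n) := by
        exact_mod_cast Nat.le_pow_clog (by norm_num) n
      calc Real.log n ≤ Real.log (2 ^ (Nat.clog 2 n)) := Real.log_le_log (by linarith) h10
        _ = Nat.clog 2 n * Real.log 2 := Real.log_pow _ _
        _ ≤ Nat.clog 2 n * 1 := by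
            gcongr
            linarith [Real.log_two_lt_d9]
        _ = Nat.clog 2 n := mul_one _
    have h12 : (0 : ℝ) ≤ Real.log n := Real.log_nonneg (by linarith)
    have h13 : (n : ℝ) + k * (a + 1) ≤ (n : ℝ) ^ (2 * c + 3) := by
      have hkR : (k : ℝ) ≤ (n : ℝ) ^ c := by exact_mod_cast hk
      have haR : (a : ℝ) ≤ (n : ℝ) ^ c := by exact_mod_cast ha
      have e1 : (1 : ℝ) ≤ (n : ℝ) ^ c := one_le_pow₀ (by linarith)
      have e2 : (k : ℝ) * (a + 1) ≤ (n : ℝ) ^ c * ((n : ℝ) ^ c + (n : ℝ) ^ c) := by gcongr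
      have e3 : (n : ℝ) ^ (2 * c + 3) = ((n : ℝ) ^ c * (n : ℝ) ^ c) * (n * n * n) := by
        rw [pow_add, two_mul, pow_add]; ring
      have e4 : (1 : ℝ) ≤ (n : ℝ) ^ c * (n : ℝ) ^ c := by nlinarith
      have e5 : (4 : ℝ) * n ≤ n * n * n := by
        nlinarith [mul_nonneg (by linarith : (0:ℝ) ≤ n) (sq_nonneg ((n : ℝ) - 2))]
      rw [e3]
      nlinarith
    have h14 : Real.log ((n : ℝ) + k * (a + 1)) ≤ (2 * c + 3) * Real.log n := by
      have h15 : (0 : ℝ) < (n : ℝ) + k * (a + 1) := by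
        have : (0 : ℝ) ≤ (k : ℝ) * (a + 1) := by positivity
        linarith
      refine (Real.log_le_log h15 h13).trans (le_of_eq ?_)
      rw [Real.log_pow]
      push_cast
      ring
    calc C₀ * (((max d 1 : ℕ) : ℝ) * Real.log ((n : ℝ) + k * (a + 1))) ≤
        C₀ * (((max d 1 : ℕ) : ℝ) * ((2 * c + 3) * (Nat.clog 2 n : ℝ))) := by
          gcongr
          exact h14.trans (by gcongr)
      _ = C₀ * (((max d 1 : ℕ) : ℝ) * (2 * c + 3)) * (Nat.clog 2 n : ℝ) := by ring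
      _ ≤ K * (Nat.clog 2 n : ℝ) := by gcongr
      _ = (w : ℝ) := by rw [hw]; push_cast; ring
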