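import Pool.Agent.TH708.Shr.Sat

/-!
# Bounds `2 ^ (δ n)` for circuits of every constant depth that share few unit clauses

Circuits for the satisfiability of 3-CNF formulas on `n` variables, whose input says for every
possible clause whether it is present. The `n` clauses that consist of one positive literal are
tracked: an AND gate shares the tracked clause `(x i)` if at least two of its inputs depend on the bit
of this clause (there are paths to it from two different inputs of the gate). All predicates of the
presence of the other clauses are allowed as leaves, free of charge; negations are at the leaves; the
fan-in of the gates is arbitrary.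

Theorem: if on every path from the output at most `m` tracked clauses are shared then the circuit
has `s` gates with `n ≤ 2 ^ 26 (m + log s + 1)`. It is enough that the circuit is right on the
formulas with clauses of at most two literals. So with `δ = 2 ^ (-28)`, for EVERY depth `d` circuits of
depth `d` whose AND gates share at most `δ n / d` of the `n` tracked clauses have more than `2 ^ (δ n)`
gates (for large `n`); this is the hypothesis `H` with a bound on the sharing (the exponent does not
get worse with the depth, as it does in all known bounds for unrestricted circuits), and it holds
even for depth `n ^ (1 - ε)` if at most `n ^ (ε / 2)` tracked clauses are shared at each AND gate.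
Without sharing there are circuits of depth two with `2 ^ n + 1` gates (exhaustive search), so the
bound is optimal up to the constant `δ`.

Proof: the general bound for functions which contain all conjunctions of disjunctions of disjoint
pairs of tracked bits (rectangles along a path of a proof tree and a random pairing), see
`Pool.Agent.TH708.Shr.Main`; the formulas consist of the clauses `¬ x i ∨ ¬ x j` for the couples and of
unit clauses.
-/

set_option autoImplicit false

namespace Pool.Agent.Results.MP_b53add_lc.SharedClauses

open Pool.Agent.TH708.Shr Pool.Agent.TH708.Shr.Sat

/-- Let `C` be a circuit whose nodes are literals of the presence of the clauses `unit i`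
(`lit i true` is true if the clause is absent, `lit i false` if it is present), predicates which do
not depend on the presence of these clauses, and AND and OR gates of any fan-in, such that the node
`o` is true if and only if the formula is satisfiable, for all formulas with clauses of at most two
literals. If at most `m` of the clauses `unit i` are shared by AND gates on each path from `o` then
`n ≤ 2 ^ 26 (m + log s + 1)`, for the number `s` of nodes. If the AND-depth of `o` is `dep o` and each
AND gate shares at most `μ` of them, then `n ≤ 2 ^ 26 (μ dep o + log s + 1)`. -/
theorem result {n s : ℕ} (C : Net (Cl n → Bool) n s) (o : Fin s)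
    (hfree : ∀ g φ, C g = Kind.fn φ → ∀ x x' : Cl n → Bool,
      (∀ c, (∀ i, c ≠ unit i) → x c = x' c) → (φ x ↔ φ x'))
    (hdec : ∀ x : Cl n → Bool, (∀ c, x c = true → c.1.card ≤ 2) →
      (Val C x (fun i => !x (unit i)) o ↔ Satisfiable x)) :
    (∀ m, SharesLe C o m → n ≤ 2 ^ 26 * (m + Nat.log 2 s + 1)) ∧
    ∀ (dep : Fin s → ℕ) (μ : ℕ),
      (∀ g l, C g = Kind.and l → ∀ c ∈ l, dep c < dep g) →
      (∀ g l, C g = Kind.or l → ∀ c ∈ l, dep c ≤ dep g) →
      (∀ g, (shared C g).ncard ≤ μ) → n ≤ 2 ^ 26 * (μ * dep o + Nat.log 2 s + 1) :=
  ⟨fun m hm => Sat.lower C o hfree hdec m hm,
    fun dep μ h1 h2 h3 => Sat.lower C o hfree hdec _ (sharesLe_of_depth dep μ h1 h2 h3)⟩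

end Pool.Agent.Results.MP_b53add_lc.SharedClauses
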