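import Pool.Agent.W951.AC.Final

/-!
# Circuits of constant depth for `k`-CNF formulas with at most one model

Circuits of depth `d` (unbounded fan-in, free negations) which decide the satisfiability of the
`k`-CNF formulas on `n` variables that have at most one model (nothing is required on formulas with
two or more models) need more than `2 ^ (n ^ β)` gates for all large `n`, for every
`β < (k - 1) / (k + d - 2)`. For 3-CNF formulas the exponent is any `β < 2 / (d + 1)`; the parity of
`O(n)` bits, which can be expressed by such formulas, gives only `1 / (d - 1)`, which is smaller if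
`d ≥ 4` (for general `k` it is smaller if `(k - 2) (d - 2) > 1`).

This is the unused theorem `main` of the starting file `Pool.Agent.W951.AC.Final`.
(`AllDepths` has the larger exponent `k / (k + d - 2)` for circuits that have to be correct on all
formulas; its hard formulas may have many models.)
-/

set_option autoImplicit false

namespace Pool.Agent.Results.MP_b53add_lc.UniqueInstances

open Pool.Agent.H596R2.D3

theorem result (k : ℕ) (hk : 3 ≤ k) (d : ℕ) (hd : 1 ≤ d) (β : ℝ)
    (hβ : β < ((k : ℝ) - 1) / (k + d - 2)) :
    ∃ n₀ : ℕ, ∀ n : ℕ, n₀ ≤ n → ∀ C : Circuit (Clause n k) d,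
      (∀ z : Clause n k → Bool,
        (∀ x x' : Fin n → Bool, (∀ c : Clause n k, z c = true → ∃ l ∈ c.1, x l.1 = l.2) →
          (∀ c : Clause n k, z c = true → ∃ l ∈ c.1, x' l.1 = l.2) → x = x') →
        (C.val z C.out ↔ Satisfiable z)) →
      (2 : ℝ) ^ ((n : ℝ) ^ β) < C.size :=
  Pool.Agent.W951.AC.main k hk d hd β hβ

end Pool.Agent.Results.MP_b53add_lc.UniqueInstances
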